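import Pool.Agent.Helper84.SB.P4

/-! Module P7 of MP_7fc85e_an: bounds for the Riesz products of the building blocks. -/

open Finset MeasureTheory
open scoped ENNReal Real

namespace Pool.Agent.Helper84.SB

open Pool.Agent.Helper60.SB

lemma ew_pos (s : ℕ) (z : ℝ) : 0 < ew s z := by
  unfold ew
  positivity

lemma ew_le_one (s : ℕ) (z : ℝ) : ew s z ≤ 1 := by
  unfold ew
  rw [div_le_one (by positivity)]
  have : 0 ≤ 2 ^ s * |Real.sin (z / 2)| := by positivity
  linarith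

lemma continuous_ew (s : ℕ) : Continuous (ew s) := by
  unfold ew
  apply Continuous.div continuous_const (by fun_prop)
  intro z
  positivity

lemma ew_add_two_pi (s : ℕ) (z : ℝ) : ew s (z + 2 * π) = ew s z := by
  unfold ew
  rw [show (z + 2 * π) / 2 = z / 2 + π by ring, Real.sin_add_pi, abs_neg]

lemma continuous_Smaj (e m : ℕ) (C₀ U : ℝ) : Continuous (Smaj e m C₀ U) := by
  unfold Smaj
  apply Continuous.mul continuous_const
  apply continuous_finsetSum _ fun t _ => ?_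
  apply continuous_finsetProd _ fun j _ => ?_
  exact (continuous_ew _).comp (continuous_apply j)

lemma Smaj_per (e m : ℕ) (C₀ U : ℝ) (x : Fin (e + 2) → ℝ) (j : Fin (e + 2)) :
    Smaj e m C₀ U (Function.update x j (x j + 2 * π)) = Smaj e m C₀ U x := by
  unfold Smaj
  congr 1
  apply Finset.sum_congr rfl
  intro t _
  apply Finset.prod_congr rfl
  intro i _
  by_cases h : i = j
  · subst h
    rw [Function.update_self, ew_add_two_pi]
  · rw [Function.update_of_ne h]

lemma Smaj_nonneg (e m : ℕ) (C₀ U : ℝ) (hC₀ : 0 ≤ C₀) (x : Fin (e + 2) → ℝ) :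
    0 ≤ Smaj e m C₀ U x := by
  unfold Smaj
  apply mul_nonneg (by positivity)
  exact Finset.sum_nonneg fun t _ => Finset.prod_nonneg fun j _ => (ew_pos _ _).le

lemma an_mul {e m : ℕ} (v : Box e m → (Fin (e + 2) → ℝ) → ℝ) (U : ℝ) (R : Box e m)
    (x y : Fin (e + 2) → ℝ) :
    an v U R x * an v U R y = (v R x * v R y) / (U ^ 2 * (m : ℝ) ^ e) := by
  unfold an
  have h : Real.sqrt ((m : ℝ) ^ e) * Real.sqrt ((m : ℝ) ^ e) = (m : ℝ) ^ e :=
    Real.mul_self_sqrt (by positivity)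
  rw [div_mul_div_comm]
  congr 1
  calc U * Real.sqrt ((m : ℝ) ^ e) * (U * Real.sqrt ((m : ℝ) ^ e)) =
      U ^ 2 * (Real.sqrt ((m : ℝ) ^ e) * Real.sqrt ((m : ℝ) ^ e)) := by ring
    _ = _ := by rw [h]

lemma sum_an_le {e m : ℕ} {C₀ U : ℝ} {v : Box e m → (Fin (e + 2) → ℝ) → ℝ}
    (hb : ∀ (t : Fin (e + 1) → Fin m) x y,
        ∑ c : ((j : Fin (e + 2)) → Fin (2 ^ shp e m t j)), |v ⟨t, c⟩ x * v ⟨t, c⟩ y| ≤
          C₀ * ∏ j, ew (shp e m t j) (x j - y j)) (x y : Fin (e + 2) → ℝ) :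
    ∑ R, |an v U R x * an v U R y| ≤ Smaj e m C₀ U (x - y) := by
  have h1 : ∀ R : Box e m, |an v U R x * an v U R y| =
      |v R x * v R y| / (U ^ 2 * (m : ℝ) ^ e) := by
    intro R
    rw [an_mul, abs_div, abs_of_nonneg (show 0 ≤ U ^ 2 * (m : ℝ) ^ e by positivity)]
  simp_rw [h1]
  rw [← Finset.sum_div, Fintype.sum_sigma]
  unfold Smaj
  rw [div_mul_eq_mul_div]
  apply div_le_div_of_nonneg_right _ (by positivity)
  rw [Finset.mul_sum]
  exact Finset.sum_le_sum fun t _ => hb t x y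

lemma continuous_an {e m : ℕ} {v : Box e m → (Fin (e + 2) → ℝ) → ℝ} (hv : ∀ R, Continuous (v R))
    (U : ℝ) (R : Box e m) : Continuous (an v U R) := by
  unfold an
  exact (hv R).div_const _

lemma continuous_sa {e m : ℕ} {v : Box e m → (Fin (e + 2) → ℝ) → ℝ} (hv : ∀ R, Continuous (v R))
    (U : ℝ) (R : Box e m) : Continuous (sa blk0 (an v U) R) := by
  unfold sa
  apply Continuous.mul (Real.continuous_sin.comp (continuous_an hv U R))
  exact continuous_finsetProd _ fun R' _ => Real.continuous_cos.comp (continuous_an hv U R')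

lemma continuous_rp {e m : ℕ} {v : Box e m → (Fin (e + 2) → ℝ) → ℝ} (hv : ∀ R, Continuous (v R))
    (U : ℝ) (β : Box e m → Bool) : Continuous (rp blk0 (an v U) β) := by
  unfold rp Gb
  apply continuous_finsetProd _ fun i _ => ?_
  apply Continuous.add continuous_const
  apply Continuous.mul continuous_const
  apply Real.continuous_sin.comp
  exact continuous_finsetSum _ fun R _ => continuous_const.mul (continuous_an hv U R)

lemma continuous_nl {e m : ℕ} {v : Box e m → (Fin (e + 2) → ℝ) → ℝ} (hv : ∀ R, Continuous (v R))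
    (U : ℝ) (β : Box e m → Bool) : Continuous (nl blk0 (an v U) β) := by
  unfold nl
  apply Continuous.sub ((continuous_rp hv U β).sub continuous_const)
  apply Continuous.mul continuous_const
  exact continuous_finsetSum _ fun R _ => continuous_const.mul (continuous_sa hv U R)

/-- `nl_energy` with the modules P3 (`av_nl_mul_le`) and P6 (`kernel_int`) as hypotheses -/
theorem nl_energy_of
    (hP3 : ∀ (e m : ℕ) (blk : Box e m → Fin m) (a : Box e m → (Fin (e + 2) → ℝ) → ℝ)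
      (x y : Fin (e + 2) → ℝ),
      |av fun β : Box e m → Bool => nl blk a β x * nl blk a β y| ≤
      (∑ R, |a R x * a R y|) ^ 2 * Real.exp (2 * ∑ R, |a R x * a R y|))
    (hP6 : ∀ (e : ℕ) (C₀ : ℝ) (_ : 0 < C₀), ∃ U₀ ≥ 1, ∀ J : ℕ, ∃ C > 0,
      ∀ m : ℕ, 1 ≤ m → ∀ U ≥ U₀,
        ∫ z, ((Smaj e m C₀ U z) ^ 2 * Real.exp (2 * Smaj e m C₀ U z)) *
          ‖∑ k ∈ Qmid (e + 2) ((e + 2) * m) J, ex k z‖ ∂(tor (e + 2)) ≤
        C * (m : ℝ) ^ (e + 1) / (U ^ 2 * (m : ℝ) ^ e) ^ 2)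
    (e : ℕ) (C₀ : ℝ) (hC₀ : 1 ≤ C₀) : ∃ U₀ ≥ 1, ∀ J : ℕ, ∃ C > 0,
    ∀ m : ℕ, 1 ≤ m → ∀ U ≥ U₀, ∀ v : Box e m → (Fin (e + 2) → ℝ) → ℝ,
      (∀ R, Continuous (v R)) →
      (∀ (t : Fin (e + 1) → Fin m) x y,
        ∑ c : ((j : Fin (e + 2)) → Fin (2 ^ shp e m t j)), |v ⟨t, c⟩ x * v ⟨t, c⟩ y| ≤
          C₀ * ∏ j, ew (shp e m t j) (x j - y j)) →
      av (fun β : Box e m → Bool => ∑ k ∈ Qmid (e + 2) ((e + 2) * m) J,
        ‖fc (fun x => ((nl blk0 (an v U) β x : ℝ) : ℂ)) k‖ ^ 2) ≤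
      C * (m : ℝ) ^ (e + 1) / (U ^ 2 * (m : ℝ) ^ e) ^ 2 := by
  obtain ⟨U₀, hU₀, h⟩ := hP6 e C₀ (by linarith)
  refine ⟨U₀, hU₀, fun J => ?_⟩
  obtain ⟨C, hC, hK⟩ := h J
  refine ⟨C, hC, fun m hm U hU v hv hb => ?_⟩
  refine le_trans ?_ (hK m hm U hU)
  apply fc_energy (fun β x => nl blk0 (an v U) β x) (fun β => continuous_nl hv U β)
    (Qmid (e + 2) ((e + 2) * m) J)
    (fun z => (Smaj e m C₀ U z) ^ 2 * Real.exp (2 * Smaj e m C₀ U z))
  · have := continuous_Smaj e m C₀ U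
    exact (this.pow 2).mul (Real.continuous_exp.comp (continuous_const.mul this))
  · intro x j
    rw [Smaj_per]
  · intro x y
    refine (hP3 e m blk0 (an v U) x y).trans ?_
    have h1 := sum_an_le (U := U) hb x y
    have h0 : 0 ≤ ∑ R, |an v U R x * an v U R y| := Finset.sum_nonneg fun R _ => abs_nonneg _
    apply mul_le_mul (pow_le_pow_left₀ h0 h1 2) _ (Real.exp_pos _).le (by positivity)
    apply Real.exp_le_exp.2
    linarith

lemma ew_zero (s : ℕ) : ew s 0 = 1 := by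
  unfold ew
  simp

/-- the sum of the squares over the shapes in a set `A` -/
lemma sum_sq_le {e m : ℕ} {C₀ U : ℝ} {v : Box e m → (Fin (e + 2) → ℝ) → ℝ}
    (hb : ∀ (t : Fin (e + 1) → Fin m) x y,
        ∑ c : ((j : Fin (e + 2)) → Fin (2 ^ shp e m t j)), |v ⟨t, c⟩ x * v ⟨t, c⟩ y| ≤
          C₀ * ∏ j, ew (shp e m t j) (x j - y j)) (x : Fin (e + 2) → ℝ)
    (p : (Fin (e + 1) → Fin m) → Prop) [DecidablePred p] :
    ∑ R ∈ univ.filter (fun R : Box e m => p R.1), an v U R x ^ 2 ≤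
      (univ.filter p).card * C₀ / (U ^ 2 * (m : ℝ) ^ e) := by
  have h1 : ∀ R : Box e m, an v U R x ^ 2 = |v R x * v R x| / (U ^ 2 * (m : ℝ) ^ e) := by
    intro R
    rw [sq, an_mul, abs_of_nonneg (mul_self_nonneg _)]
  simp_rw [h1]
  rw [← Finset.sum_div]
  apply div_le_div_of_nonneg_right _ (by positivity)
  rw [Finset.sum_filter, Fintype.sum_sigma]
  have h2 : ∀ t : Fin (e + 1) → Fin m,
      (∑ c : ((j : Fin (e + 2)) → Fin (2 ^ shp e m t j)),
        if p (Sigma.mk (β := fun t : Fin (e + 1) → Fin m =>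
          ((j : Fin (e + 2)) → Fin (2 ^ shp e m t j))) t c).1 then
          |v ⟨t, c⟩ x * v ⟨t, c⟩ x| else 0) ≤ if p t then C₀ else 0 := by
    intro t
    simp only
    split_ifs with h
    · refine (hb t x x).trans ?_
      simp [ew_zero]
    · simp
  refine (Finset.sum_le_sum fun t _ => h2 t).trans ?_
  rw [← Finset.sum_filter, Finset.sum_const, nsmul_eq_mul]

lemma card_t0 (e m : ℕ) (i : Fin m) :
    (univ.filter (fun t : Fin (e + 1) → Fin m => t 0 = i)).card = m ^ e := by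
  classical
  have h : univ.filter (fun t : Fin (e + 1) → Fin m => t 0 = i) =
      Fintype.piFinset (fun j : Fin (e + 1) => if j = 0 then {i} else univ) := by
    ext t
    simp only [mem_filter, mem_univ, true_and, Fintype.mem_piFinset]
    constructor
    · intro h j
      by_cases hj : j = 0
      · subst hj
        simp [h]
      · simp [hj]
    · intro h
      simpa using h 0
  rw [h, Fintype.card_piFinset, Fin.prod_univ_succ]
  simp [Fin.succ_ne_zero]

lemma av_integral {d : ℕ} {ι : Type} [Fintype ι] [DecidableEq ι]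
    (F : (ι → Bool) → (Fin d → ℝ) → ℝ) (hF : ∀ β, Continuous (F β)) :
    av (fun β => ∫ x, F β x ∂(tor d)) = ∫ x, av (fun β => F β x) ∂(tor d) := by
  unfold av
  rw [integral_div, integral_finsetSum _ fun β _ => integrable_of_cont (hF β)]

/-- `lin_energy` with module P3 (`abs_sa_sub_le`, `av_lin_sq`) as hypotheses -/
theorem lin_energy_of
    (hP3a : ∀ (e m : ℕ) (blk : Box e m → Fin m) (a : Box e m → (Fin (e + 2) → ℝ) → ℝ)
      (R : Box e m) (x : Fin (e + 2) → ℝ),
      |sa blk a R x - a R x| ≤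
        |a R x| * ∑ R' ∈ univ.filter (fun R' => blk R' = blk R), a R' x ^ 2)
    (hP3b : ∀ (e m : ℕ) (b : Box e m → ℝ),
      av (fun β : Box e m → Bool => (∑ R, sg (β R) * b R) ^ 2) = ∑ R, b R ^ 2)
    (e : ℕ) (C₀ : ℝ) (hC₀ : 1 ≤ C₀) (m : ℕ) (hm : 1 ≤ m) (U : ℝ) (hU : 1 ≤ U)
    (v : Box e m → (Fin (e + 2) → ℝ) → ℝ) (hv : ∀ R, Continuous (v R))
    (hb : ∀ (t : Fin (e + 1) → Fin m) x y,
        ∑ c : ((j : Fin (e + 2)) → Fin (2 ^ shp e m t j)), |v ⟨t, c⟩ x * v ⟨t, c⟩ y| ≤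
          C₀ * ∏ j, ew (shp e m t j) (x j - y j)) :
    av (fun β : Box e m → Bool => ∫ x, (∑ R, sg (β R) * an v U R x) ^ 2 ∂(tor (e + 2))) ≤
      C₀ * m / U ^ 2 ∧
    av (fun β : Box e m → Bool =>
      ∫ x, (∑ R, sg (β R) * (sa blk0 (an v U) R x - an v U R x)) ^ 2 ∂(tor (e + 2))) ≤
      C₀ ^ 3 * m / U ^ 6 := by
  have hprob := prob_tor (e + 2)
  have hm0 : (0 : ℝ) < m := by exact_mod_cast hm
  have hU0 : 0 < U := by linarith
  -- sums of squares
  have hall : ∀ x : Fin (e + 2) → ℝ, ∑ R, an v U R x ^ 2 ≤ C₀ * m / U ^ 2 := by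
    intro x
    have h := sum_sq_le (U := U) hb x (fun _ => True)
    simp only [Finset.filter_true] at h
    refine h.trans (le_of_eq ?_)
    rw [Finset.card_univ, Fintype.card_fun, Fintype.card_fin, Fintype.card_fin]
    push_cast
    field_simp
    ring
  have hblk : ∀ (x : Fin (e + 2) → ℝ) (i : Fin m),
      ∑ R ∈ univ.filter (fun R : Box e m => blk0 R = i), an v U R x ^ 2 ≤ C₀ / U ^ 2 := by
    intro x i
    have h := sum_sq_le (U := U) hb x (fun t => t 0 = i)
    have h2 : univ.filter (fun R : Box e m => blk0 R = i) =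
        univ.filter (fun R : Box e m => R.1 0 = i) := rfl
    rw [h2]
    refine h.trans (le_of_eq ?_)
    rw [card_t0]
    push_cast
    field_simp
  have hint : ∀ (G : (Fin (e + 2) → ℝ) → ℝ) (c : ℝ), Continuous G → (∀ x, G x ≤ c) →
      ∫ x, G x ∂(tor (e + 2)) ≤ c := by
    intro G c hG hc
    calc ∫ x, G x ∂(tor (e + 2)) ≤ ∫ x, c ∂(tor (e + 2)) :=
          integral_mono (integrable_of_cont hG) (integrable_const _) hc
      _ = c := by simp
  constructor
  · rw [av_integral (fun β x => (∑ R, sg (β R) * an v U R x) ^ 2) (fun β =>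
      (continuous_finsetSum _ fun R _ => continuous_const.mul (continuous_an hv U R)).pow 2)]
    simp_rw [hP3b]
    exact hint _ _ (continuous_finsetSum _ fun R _ => (continuous_an hv U R).pow 2) hall
  · rw [av_integral (fun β x => (∑ R, sg (β R) * (sa blk0 (an v U) R x - an v U R x)) ^ 2)
      (fun β => (continuous_finsetSum _ fun R _ => continuous_const.mul
        ((continuous_sa hv U R).sub (continuous_an hv U R))).pow 2)]
    simp_rw [hP3b]
    apply hint _ _ (continuous_finsetSum _ fun R _ =>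
      ((continuous_sa hv U R).sub (continuous_an hv U R)).pow 2)
    intro x
    have h1 : ∀ R : Box e m, (sa blk0 (an v U) R x - an v U R x) ^ 2 ≤
        an v U R x ^ 2 * (C₀ / U ^ 2) ^ 2 := by
      intro R
      have h2 := hP3a e m blk0 (an v U) R x
      have h3 : |sa blk0 (an v U) R x - an v U R x| ≤ |an v U R x| * (C₀ / U ^ 2) :=
        h2.trans (mul_le_mul_of_nonneg_left (hblk x (blk0 R)) (abs_nonneg _))
      calc (sa blk0 (an v U) R x - an v U R x) ^ 2 =
          |sa blk0 (an v U) R x - an v U R x| ^ 2 := (sq_abs _).symm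
        _ ≤ (|an v U R x| * (C₀ / U ^ 2)) ^ 2 := pow_le_pow_left₀ (abs_nonneg _) h3 2
        _ = _ := by rw [mul_pow, sq_abs]
    refine (Finset.sum_le_sum fun R _ => h1 R).trans ?_
    rw [← Finset.sum_mul]
    refine (mul_le_mul_of_nonneg_right (hall x) (by positivity)).trans (le_of_eq ?_)
    field_simp

end Pool.Agent.Helper84.SB
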