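import Pool.Agent.Helper60.SB.Defs5
import Pool.Agent.Helper42.SB.U13

/-! Module P4 of MP_7fc85e_an: average energy on a set of frequencies. -/

open Finset MeasureTheory
open scoped ENNReal Real

namespace Pool.Agent.Helper84.SB

open Pool.Agent.Helper60.SB
open Pool.Agent.Helper42.SB (Per integral_translate measurable_ex ex_add per_ex)

lemma prob_tor1 : IsProbabilityMeasure tor1 := by
  constructor
  unfold tor1
  rw [Measure.smul_apply, Measure.restrict_apply_univ, Real.volume_Ico, sub_zero, smul_eq_mul]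
  apply ENNReal.inv_mul_cancel
  · rw [ne_eq, ENNReal.ofReal_eq_zero, not_le]
    exact Real.two_pi_pos
  · exact ENNReal.ofReal_ne_top

lemma prob_tor (d : ℕ) : IsProbabilityMeasure (tor d) := by
  have := prob_tor1
  unfold tor
  infer_instance

lemma ae_box (d : ℕ) : ∀ᵐ x ∂(tor d), x ∈ Set.pi Set.univ (fun _ : Fin d => Set.Icc (0 : ℝ) (2 * π)) := by
  have := prob_tor1
  have h1 : ∀ᵐ x ∂tor1, x ∈ Set.Icc (0 : ℝ) (2 * π) := by
    unfold tor1
    apply Measure.ae_smul_measure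
    refine (ae_restrict_mem measurableSet_Ico).mono fun x hx => ⟨hx.1, hx.2.le⟩
  have h2 : ∀ j : Fin d, ∀ᵐ x ∂(tor d), x j ∈ Set.Icc (0 : ℝ) (2 * π) := by
    intro j
    unfold tor
    exact (Measure.tendsto_eval_ae_ae (i := j)).eventually h1
  filter_upwards [ae_all_iff.2 h2] with x hx
  intro j _
  exact hx j

lemma integrable_of_cont {d : ℕ} {E : Type*} [NormedAddCommGroup E] {g : (Fin d → ℝ) → E}
    (hg : Continuous g) : Integrable g (tor d) := by
  have := prob_tor d
  have hK : IsCompact (Set.pi Set.univ (fun _ : Fin d => Set.Icc (0 : ℝ) (2 * π))) :=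
    isCompact_univ_pi fun _ => isCompact_Icc
  obtain ⟨C, hC⟩ := hK.exists_bound_of_continuousOn hg.continuousOn
  have hm : AEStronglyMeasurable g (tor d) := by
    have h1 : (tor d) = (tor d).restrict
        (Set.pi Set.univ (fun _ : Fin d => Set.Icc (0 : ℝ) (2 * π))) := by
      rw [Measure.restrict_eq_self_of_ae_mem (ae_box d)]
    rw [h1]
    exact hg.continuousOn.aestronglyMeasurable_of_isCompact hK hK.measurableSet
  exact Integrable.of_bound hm C ((ae_box d).mono fun x hx => hC x hx)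

lemma continuous_ex {d : ℕ} (k : Fin d → ℤ) : Continuous (ex k) := by
  unfold ex
  fun_prop

lemma conj_ex {d : ℕ} (k : Fin d → ℤ) (x : Fin d → ℝ) :
    (starRingEnd ℂ) (ex (-k) x) = ex k x := by
  unfold ex
  rw [← Complex.exp_conj]
  congr 1
  simp

lemma ex_neg_eq {d : ℕ} (k : Fin d → ℤ) (x : Fin d → ℝ) : ex (-k) x = ex k (-x) := by
  unfold ex
  simp

lemma ex_sub {d : ℕ} (k : Fin d → ℤ) (x y : Fin d → ℝ) : ex k x * ex (-k) y = ex k (x - y) := by
  rw [ex_neg_eq, ← ex_add, sub_eq_add_neg]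

theorem fc_energy {d : ℕ} {ι : Type} [Fintype ι] [DecidableEq ι]
    (F : (ι → Bool) → (Fin d → ℝ) → ℝ) (hF : ∀ β, Continuous (F β)) (Q : Finset (Fin d → ℤ))
    (W : (Fin d → ℝ) → ℝ) (hW : Continuous W)
    (hper : ∀ x j, W (Function.update x j (x j + 2 * π)) = W x)
    (hb : ∀ x y, |av fun β : ι → Bool => F β x * F β y| ≤ W (x - y)) :
    av (fun β : ι → Bool => ∑ k ∈ Q, ‖fc (fun x => ((F β x : ℝ) : ℂ)) k‖ ^ 2) ≤
      ∫ z, W z * ‖∑ k ∈ Q, ex k z‖ ∂(tor d) := by
  have := prob_tor d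
  set N : ℝ := 2 ^ Fintype.card ι with hN
  have hN0 : 0 < N := by positivity
  have hFc : ∀ β, Continuous fun x => ((F β x : ℝ) : ℂ) := fun β =>
    Complex.continuous_ofReal.comp (hF β)
  have hi1 : ∀ β k, Integrable (fun x => ((F β x : ℝ) : ℂ) * ex k x) (tor d) := fun β k =>
    integrable_of_cont ((hFc β).mul (continuous_ex k))
  -- one square
  have h1 : ∀ β k, ((‖fc (fun x => ((F β x : ℝ) : ℂ)) k‖ ^ 2 : ℝ) : ℂ) =
      ∫ y, ∫ x, (((F β x : ℝ) : ℂ) * ex k x) * (((F β y : ℝ) : ℂ) * ex (-k) y)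
        ∂(tor d) ∂(tor d) := by
    intro β k
    have e1 : ((‖fc (fun x => ((F β x : ℝ) : ℂ)) k‖ ^ 2 : ℝ) : ℂ) =
        (starRingEnd ℂ) (fc (fun x => ((F β x : ℝ) : ℂ)) k) *
          fc (fun x => ((F β x : ℝ) : ℂ)) k := by
      rw [Complex.conj_mul']
      push_cast
      rfl
    rw [e1]
    have e2 : (starRingEnd ℂ) (fc (fun x => ((F β x : ℝ) : ℂ)) k) =
        ∫ x, ((F β x : ℝ) : ℂ) * ex k x ∂(tor d) := by
      unfold fc
      rw [← integral_conj]
      apply integral_congr_ae (Filter.Eventually.of_forall fun x => ?_)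
      simp only [map_mul, Complex.conj_ofReal, conj_ex]
    rw [e2]
    have e3 : ∀ y, ∫ x, (((F β x : ℝ) : ℂ) * ex k x) * (((F β y : ℝ) : ℂ) * ex (-k) y)
        ∂(tor d) = (∫ x, ((F β x : ℝ) : ℂ) * ex k x ∂(tor d)) *
          (((F β y : ℝ) : ℂ) * ex (-k) y) := fun y => integral_mul_const _ _
    simp_rw [e3]
    rw [integral_const_mul]
    rfl
  -- the double integral
  have h2 : ((∑ β : ι → Bool, ∑ k ∈ Q, ‖fc (fun x => ((F β x : ℝ) : ℂ)) k‖ ^ 2 : ℝ) : ℂ) =
      ∫ y, ∫ x, ((∑ β : ι → Bool, F β x * F β y : ℝ) : ℂ) * ∑ k ∈ Q, ex k (x - y)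
        ∂(tor d) ∂(tor d) := by
    have e0 : ∀ y x, ((∑ β : ι → Bool, F β x * F β y : ℝ) : ℂ) * ∑ k ∈ Q, ex k (x - y) =
        ∑ β : ι → Bool, ∑ k ∈ Q, (((F β x : ℝ) : ℂ) * ex k x) * (((F β y : ℝ) : ℂ) * ex (-k) y) := by
      intro y x
      push_cast
      rw [Finset.sum_mul]
      apply Finset.sum_congr rfl
      intro β _
      rw [Finset.mul_sum]
      apply Finset.sum_congr rfl
      intro k _
      rw [← ex_sub]
      ring
    simp_rw [e0]
    have e1 : ∀ y, ∫ x, ∑ β : ι → Bool, ∑ k ∈ Q,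
        (((F β x : ℝ) : ℂ) * ex k x) * (((F β y : ℝ) : ℂ) * ex (-k) y) ∂(tor d) =
        ∑ β : ι → Bool, ∑ k ∈ Q, ∫ x,
          (((F β x : ℝ) : ℂ) * ex k x) * (((F β y : ℝ) : ℂ) * ex (-k) y) ∂(tor d) := by
      intro y
      rw [integral_finsetSum _ fun β _ => integrable_finsetSum _ fun k _ =>
        (hi1 β k).mul_const _]
      apply Finset.sum_congr rfl
      intro β _
      rw [integral_finsetSum _ fun k _ => (hi1 β k).mul_const _]
    simp_rw [e1]
    have e2 : ∀ β k, Integrable (fun y => ∫ x,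
          (((F β x : ℝ) : ℂ) * ex k x) * (((F β y : ℝ) : ℂ) * ex (-k) y) ∂(tor d)) (tor d) := by
      intro β k
      have : (fun y => ∫ x,
          (((F β x : ℝ) : ℂ) * ex k x) * (((F β y : ℝ) : ℂ) * ex (-k) y) ∂(tor d)) =
          fun y => (∫ x, ((F β x : ℝ) : ℂ) * ex k x ∂(tor d)) *
          (((F β y : ℝ) : ℂ) * ex (-k) y) := by
        funext y
        exact integral_mul_const _ _
      rw [this]
      exact (hi1 β (-k)).const_mul _
    rw [integral_finsetSum _ fun β _ => integrable_finsetSum _ fun k _ => e2 β k]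
    push_cast
    apply Finset.sum_congr rfl
    intro β _
    rw [integral_finsetSum _ fun k _ => e2 β k]
    apply Finset.sum_congr rfl
    intro k _
    rw [← h1 β k]
    push_cast
    rfl
  -- the right hand side
  set c : ℝ := ∫ z, W z * ‖∑ k ∈ Q, ex k z‖ ∂(tor d) with hc
  have hDc : Continuous fun z : Fin d → ℝ => ∑ k ∈ Q, ex k z :=
    continuous_finsetSum _ fun k _ => continuous_ex k
  have hGc : Continuous fun z : Fin d → ℝ => W z * ‖∑ k ∈ Q, ex k z‖ := hW.mul hDc.norm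
  have htr : ∀ y, ∫ x, W (x - y) * ‖∑ k ∈ Q, ex k (x - y)‖ ∂(tor d) = c := by
    intro y
    have hPer : Per (fun z : Fin d → ℝ => ((W z * ‖∑ k ∈ Q, ex k z‖ : ℝ) : ℂ)) := by
      intro x j
      have e1 : ∑ k ∈ Q, ex k (Function.update x j (x j + 2 * π)) = ∑ k ∈ Q, ex k x :=
        Finset.sum_congr rfl fun k _ => per_ex k x j
      simp only [hper x j, e1]
    have h3 := integral_translate hPer
      ((Complex.continuous_ofReal.comp hGc).measurable) (-y)
    have h4 : ∀ x : Fin d → ℝ, x + -y = x - y := fun x => (sub_eq_add_neg x y).symm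
    simp only [h4] at h3
    have h5 : ((∫ x, W (x - y) * ‖∑ k ∈ Q, ex k (x - y)‖ ∂(tor d) : ℝ) : ℂ) = (c : ℂ) := by
      rw [hc, ← integral_complex_ofReal, ← integral_complex_ofReal]
      exact h3
    exact_mod_cast h5
  have hbound : ∀ y, ‖∫ x, ((∑ β : ι → Bool, F β x * F β y : ℝ) : ℂ) * ∑ k ∈ Q, ex k (x - y)
        ∂(tor d)‖ ≤ N * c := by
    intro y
    rw [← htr y, ← integral_const_mul]
    refine (norm_integral_le_integral_norm _).trans ?_
    have hi : Integrable (fun x => N * (W (x - y) * ‖∑ k ∈ Q, ex k (x - y)‖)) (tor d) := by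
      apply integrable_of_cont
      exact continuous_const.mul (hGc.comp (continuous_id.sub continuous_const))
    refine integral_mono_of_nonneg (Filter.Eventually.of_forall fun x => norm_nonneg _) hi
      (Filter.Eventually.of_forall fun x => ?_)
    simp only
    rw [norm_mul, Complex.norm_real, Real.norm_eq_abs, ← mul_assoc]
    apply mul_le_mul_of_nonneg_right _ (norm_nonneg _)
    have h6 := hb x y
    unfold av at h6
    rw [abs_div, abs_of_pos (show (0:ℝ) < 2 ^ Fintype.card ι by positivity),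
      div_le_iff₀ (by positivity)] at h6
    linarith
  have hfin : ‖((∑ β : ι → Bool, ∑ k ∈ Q, ‖fc (fun x => ((F β x : ℝ) : ℂ)) k‖ ^ 2 : ℝ) : ℂ)‖ ≤
      N * c := by
    rw [h2]
    have := norm_integral_le_of_norm_le_const (μ := tor d)
      (Filter.Eventually.of_forall hbound)
    simpa using this
  unfold av
  rw [div_le_iff₀ hN0]
  rw [Complex.norm_real, Real.norm_eq_abs] at hfin
  linarith [le_abs_self (∑ β : ι → Bool, ∑ k ∈ Q, ‖fc (fun x => ((F β x : ℝ) : ℂ)) k‖ ^ 2)]

end Pool.Agent.Helper84.SB
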